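import Mathlib

set_option autoImplicit false

/-! Polyhedral manifolds in Euclidean 3-space: definitions and local lemmas (helper140). -/

namespace Pool.Agent.H140.PM

/-- Euclidean 3-space -/
abbrev E3 := EuclideanSpace ℝ (Fin 3)

/-- the determinant of three vectors of Euclidean 3-space -/
def det3 (a b c : E3) : ℝ :=
  a 0 * (b 1 * c 2 - b 2 * c 1) - a 1 * (b 0 * c 2 - b 2 * c 0) + a 2 * (b 0 * c 1 - b 1 * c 0)

/-- the inner product of two vectors of Euclidean 3-space -/
def dot3 (a b : E3) : ℝ := a 0 * b 0 + a 1 * b 1 + a 2 * b 2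

section comb
variable {V : Type}

/-- the directed edges of the face whose vertices are, in cyclic order, those of the list `f` -/
def dirEdges (f : List V) : List (V × V) := f.zip (f.rotate 1)

/-- all the directed edges of a family of faces -/
def allEdges (F : List (List V)) : List (V × V) := F.flatMap dirEdges

/-- The faces through `v` form one cycle: there is a cyclic list `L` of at least three vertices such
that the faces through `v` are exactly the ones that pass `a → v → b` with `(a, b)` consecutive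
in `L`. -/
def LinkIsCycle (F : List (List V)) (v : V) : Prop :=
  ∃ L : List V, L.Nodup ∧ 3 ≤ L.length ∧
    ∀ a b : V, (a, b) ∈ dirEdges L ↔ ∃ f ∈ F, (a, v) ∈ dirEdges f ∧ (v, b) ∈ dirEdges f

/-- `F` is the list of (oriented) faces of a map on a closed connected orientable surface with
vertex set `V`. -/
structure IsSurfaceMap (F : List (List V)) : Prop where
  /-- faces are cycles of length at least three -/
  cycles : ∀ f ∈ F, 3 ≤ f.length ∧ f.Nodup
  /-- no directed edge is on two faces ... -/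
  nodup : (allEdges F).Nodup
  /-- ... and every directed edge also occurs in the opposite direction, so that every edge is on
  exactly two faces, which induce opposite directions on it -/
  swap : ∀ e ∈ allEdges F, e.swap ∈ allEdges F
  /-- the faces at each vertex form one cycle -/
  link : ∀ v : V, LinkIsCycle F v
  /-- the surface is connected -/
  conn : ∀ a b : V, Relation.ReflTransGen (fun x y => (x, y) ∈ allEdges F) a b

/-- the vertices `u`, `v` are joined by an edge -/
def Adj (F : List (List V)) (v u : V) : Prop := (v, u) ∈ allEdges F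

/-- the number of edges at the vertex `v` -/
noncomputable def valence (F : List (List V)) (v : V) : ℕ := Nat.card {u : V // Adj F v u}

/-- the points of the list `f` are, in this cyclic order, the vertices of a planar (strictly)
convex polygon: they lie in a plane with normal vector `n`, and seen from the side of `n` every
three of them, in the order of the list, are in counterclockwise order -/
def ConvexPolygon (φ : V → E3) (f : List V) : Prop :=
  ∃ (n : E3) (c : ℝ), (∀ v ∈ f, dot3 n (φ v) = c) ∧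
    ∀ i j k : Fin f.length, i < j → j < k →
      0 < det3 n (φ (f.get j) - φ (f.get i)) (φ (f.get k) - φ (f.get i))

/-- the closed convex polygon with the vertices of `f` -/
def face (φ : V → E3) (f : List V) : Set E3 := convexHull ℝ (φ '' {v | v ∈ f})

/-- `φ` places the vertices of the map `F` in Euclidean 3-space such that a polyhedral manifold
with this map arises: the faces are planar convex polygons, and any two faces are disjoint, share
exactly one vertex, or share exactly one edge. -/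
structure Realizes (F : List (List V)) (φ : V → E3) : Prop where
  inj : Function.Injective φ
  polygon : ∀ f ∈ F, ConvexPolygon φ f
  meet : ∀ f ∈ F, ∀ g ∈ F, f ≠ g →
    face φ f ∩ face φ g = ∅ ∨
    (∃ v, v ∈ f ∧ v ∈ g ∧ face φ f ∩ face φ g = {φ v}) ∨
    (∃ a b, (a, b) ∈ dirEdges f ∧ (b, a) ∈ dirEdges g ∧
      face φ f ∩ face φ g = segment ℝ (φ a) (φ b))

/-- A subset `X` of a plane is a convex curve: through every point of `X` there is a line of the
plane such that `X` lies on one side of the line (and is not contained in it). -/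
def ConvexCurve (X : Set E3) : Prop :=
  ∀ x ∈ X, ∃ h : E3 →ₗ[ℝ] ℝ, (∀ y ∈ X, h x ≤ h y) ∧ ∃ y ∈ X, h x < h y

/-- The vertex `v` is convex: some plane `g = c` strictly separates `v` from all of its
neighbours, and the vertex figure, the intersection of the plane with the union of the faces
containing `v`, is convex. -/
def ConvexVertex (F : List (List V)) (φ : V → E3) (v : V) : Prop :=
  ∃ (g : E3 →ₗ[ℝ] ℝ) (c : ℝ), g (φ v) < c ∧ (∀ u, Adj F v u → c < g (φ u)) ∧
    ConvexCurve ({x | g x = c} ∩ ⋃ f ∈ {f | f ∈ F ∧ v ∈ f}, face φ f)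

end comb

/-! ### Algebra -/

lemma cramer (n e x y : E3) :
    det3 n e x • y = det3 n y x • e + det3 n e y • x + det3 y e x • n := by
  ext i
  fin_cases i <;> simp [det3] <;> ring

lemma dot_mul_det (n e x y : E3) (he : dot3 n e = 0) (hx : dot3 n x = 0) :
    dot3 n n * det3 e x y = det3 n e x * dot3 n y := by
  have key : dot3 n n * det3 e x y - det3 n e x * dot3 n y =
      dot3 n e * det3 n x y - dot3 n x * det3 n e y := by
    simp only [dot3, det3]
    ring
  rw [he, hx] at key
  linarith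

lemma dot_self_pos {n e x : E3} (h : det3 n e x ≠ 0) : 0 < dot3 n n := by
  by_contra hn
  apply h
  simp only [dot3] at hn
  have h0 : n 0 = 0 := by nlinarith [mul_self_nonneg (n 0), mul_self_nonneg (n 1), mul_self_nonneg (n 2)]
  have h1 : n 1 = 0 := by nlinarith [mul_self_nonneg (n 0), mul_self_nonneg (n 1), mul_self_nonneg (n 2)]
  have h2 : n 2 = 0 := by nlinarith [mul_self_nonneg (n 0), mul_self_nonneg (n 1), mul_self_nonneg (n 2)]
  simp [det3, h0, h1, h2]

lemma det_plane {n e x y : E3} (he : dot3 n e = 0) (hx : dot3 n x = 0) (hy : dot3 n y = 0)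
    (h : det3 n e x ≠ 0) : det3 e x y = 0 := by
  have := dot_mul_det n e x y he hx
  rw [hy, mul_zero] at this
  exact (mul_eq_zero.1 this).resolve_left (dot_self_pos h).ne'

/-- decomposition of a vector of the plane spanned by `e`, `x` -/
lemma decomp' {n e x y : E3} (h : det3 n e x ≠ 0) (h0 : det3 e x y = 0) :
    y = (det3 n y x / det3 n e x) • e + (det3 n e y / det3 n e x) • x := by
  have h1 := cramer n e x y
  have h2 : det3 y e x = 0 := by
    have : det3 y e x = det3 e x y := by simp only [det3]; ring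
    rw [this, h0]
  rw [h2, zero_smul, add_zero] at h1
  have h3 : y = (det3 n e x)⁻¹ • (det3 n e x • y) := by
    rw [smul_smul, inv_mul_cancel₀ h, one_smul]
  rw [h1, smul_add, smul_smul, smul_smul] at h3
  rw [div_eq_inv_mul, div_eq_inv_mul]
  exact h3

lemma decomp {n e x y : E3} (he : dot3 n e = 0) (hx : dot3 n x = 0) (hy : dot3 n y = 0)
    (h : 0 < det3 n e x) (h' : 0 < det3 n e y) : ∃ α β : ℝ, 0 < β ∧ y = α • e + β • x :=
  ⟨_, _, div_pos h' h, decomp' h.ne' (det_plane he hx hy h.ne')⟩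

lemma det3_smul_add (e x y : E3) (α β γ δ : ℝ) :
    det3 e (α • e + β • x) (γ • e + δ • y) = β * δ * det3 e x y := by
  simp [det3]
  ring

lemma det3_rot (a b c : E3) : det3 a b c = det3 b c a := by simp only [det3]; ring

lemma det3_neg_left (a b c : E3) : det3 (-a) b c = - det3 a b c := by simp [det3]; ring

lemma det3_swap (a b c : E3) : det3 a b c = - det3 a c b := by simp only [det3]; ring

lemma dot3_sub (n a b : E3) : dot3 n (a - b) = dot3 n a - dot3 n b := by simp [dot3]; ring

lemma dot3_smul_add (n a b : E3) (α β : ℝ) :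
    dot3 n (α • a + β • b) = α * dot3 n a + β * dot3 n b := by simp [dot3]; ring

/-! ### Polygons -/

section poly
variable {V : Type}

/-- the vertices of `f` lie in a plane with normal `n` and are in convex position, seen from the
side of `n` in counterclockwise order -/
def PolyBy (φ : V → E3) (n : E3) (f : List V) : Prop :=
  (∃ c : ℝ, ∀ v ∈ f, dot3 n (φ v) = c) ∧
    ∀ i j k : Fin f.length, i < j → j < k →
      0 < det3 n (φ (f.get j) - φ (f.get i)) (φ (f.get k) - φ (f.get i))

lemma exists_polyBy {φ : V → E3} {f : List V} (h : ConvexPolygon φ f) : ∃ n, PolyBy φ n f := by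
  obtain ⟨n, c, h1, h2⟩ := h
  exact ⟨n, ⟨c, h1⟩, h2⟩

lemma PolyBy.dot {φ : V → E3} {n : E3} {f : List V} (h : PolyBy φ n f) {a b : V} (ha : a ∈ f)
    (hb : b ∈ f) : dot3 n (φ a - φ b) = 0 := by
  obtain ⟨⟨c, h1⟩, -⟩ := h
  rw [dot3_sub, h1 a ha, h1 b hb, sub_self]

lemma mem_dirEdges {f : List V} {p q : V} (h : (p, q) ∈ dirEdges f) :
    ∃ i : Fin f.length, f.get i = p ∧ (((i : ℕ) + 1 < f.length ∧ ∃ h : (i : ℕ) + 1 < f.length,
      f.get ⟨i + 1, h⟩ = q) ∨ ((i : ℕ) + 1 = f.length ∧ ∃ h : 0 < f.length, f.get ⟨0, h⟩ = q)) := by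
  unfold dirEdges at h
  rw [List.mem_iff_getElem] at h
  obtain ⟨i, hi, hpq⟩ := h
  rw [List.getElem_zip] at hpq
  have hl : i < f.length := by
    rw [List.length_zip] at hi
    omega
  have h1 := congrArg Prod.fst hpq
  have h2 := congrArg Prod.snd hpq
  simp only at h1 h2
  rw [List.getElem_rotate] at h2
  refine ⟨⟨i, hl⟩, by simpa using h1, ?_⟩
  by_cases hlt : i + 1 < f.length
  · left
    refine ⟨hlt, hlt, ?_⟩
    simp only [Nat.mod_eq_of_lt hlt] at h2
    simpa using h2
  · right
    have hl' : i + 1 = f.length := by omega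
    refine ⟨hl', by omega, ?_⟩
    simp only [hl', Nat.mod_self] at h2
    simpa using h2

lemma PolyBy.pos {φ : V → E3} {n : E3} {f : List V} (h : PolyBy φ n f) {p q a : V}
    (hpq : (p, q) ∈ dirEdges f) (ha : a ∈ f) (hap : a ≠ p) (haq : a ≠ q) :
    0 < det3 n (φ q - φ p) (φ a - φ p) := by
  obtain ⟨-, h2⟩ := h
  obtain ⟨i, hi, h3⟩ := mem_dirEdges hpq
  obtain ⟨k, hk⟩ := List.mem_iff_get.1 ha
  have rot : ∀ x y z : E3, det3 n (y - x) (z - x) = det3 n (z - y) (x - y) := by
    intro x y z; simp [det3]; ring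
  rcases h3 with ⟨h3, h4, h5⟩ | ⟨h3, h4, h5⟩
  · have hik : k ≠ i := by rintro rfl; exact hap (hk.symm.trans hi)
    have hjk : k ≠ ⟨i + 1, h4⟩ := by rintro rfl; exact haq (hk.symm.trans h5)
    have hik' : (k : ℕ) ≠ i := fun h => hik (Fin.ext h)
    have hjk' : (k : ℕ) ≠ i + 1 := fun h => hjk (Fin.ext h)
    rcases lt_or_gt_of_ne hik' with h | h
    · have := h2 k i ⟨i + 1, h4⟩ (Fin.lt_def.2 h) (Fin.lt_def.2 (by simp))
      rw [hk, hi, h5, rot] at this
      exact this
    · have := h2 i ⟨i + 1, h4⟩ k (Fin.lt_def.2 (by simp)) (Fin.lt_def.2 (by simp; omega))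
      rw [hk, hi, h5] at this
      exact this
  · have hik : k ≠ i := by rintro rfl; exact hap (hk.symm.trans hi)
    have hjk : k ≠ ⟨0, h4⟩ := by rintro rfl; exact haq (hk.symm.trans h5)
    have hik' : (k : ℕ) ≠ i := fun h => hik (Fin.ext h)
    have hjk' : (k : ℕ) ≠ 0 := fun h => hjk (Fin.ext h)
    have hkl := k.2
    have := h2 ⟨0, h4⟩ k i (Fin.lt_def.2 (by simp; omega)) (Fin.lt_def.2 (by omega))
    rw [hk, hi, h5, rot, rot] at this
    exact this

/-- membership of the end points of an edge -/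
lemma mem_of_dirEdges {f : List V} {p q : V} (h : (p, q) ∈ dirEdges f) : p ∈ f ∧ q ∈ f := by
  obtain ⟨i, hi, h3⟩ := mem_dirEdges h
  refine ⟨hi ▸ List.get_mem _ _, ?_⟩
  rcases h3 with ⟨-, h4, h5⟩ | ⟨-, h4, h5⟩
  · exact h5 ▸ List.get_mem _ _
  · exact h5 ▸ List.get_mem _ _

/-- The direction of the bend at an edge does not depend on the vertices used to measure it. -/
lemma bend {φ : V → E3} {f g : List V} (hf : ConvexPolygon φ f) (hg : ConvexPolygon φ g)
    {p q a a' b b' : V} (hpf : (p, q) ∈ dirEdges f) (hpg : (q, p) ∈ dirEdges g)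
    (ha : a ∈ f) (hap : a ≠ p) (haq : a ≠ q) (ha' : a' ∈ f) (hap' : a' ≠ p) (haq' : a' ≠ q)
    (hb : b ∈ g) (hbp : b ≠ p) (hbq : b ≠ q) (hb' : b' ∈ g) (hbp' : b' ≠ p) (hbq' : b' ≠ q) :
    ∃ t : ℝ, 0 < t ∧ det3 (φ q - φ p) (φ a' - φ p) (φ b' - φ p) =
      t * det3 (φ q - φ p) (φ a - φ p) (φ b - φ p) := by
  obtain ⟨n, hn⟩ := exists_polyBy hf
  obtain ⟨m, hm⟩ := exists_polyBy hg
  obtain ⟨hp1, hq1⟩ := mem_of_dirEdges hpf
  obtain ⟨hq2, hp2⟩ := mem_of_dirEdges hpg
  obtain ⟨α, β, hβ, e1⟩ := decomp (hn.dot hq1 hp1) (hn.dot ha hp1) (hn.dot ha' hp1)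
    (hn.pos hpf ha hap haq) (hn.pos hpf ha' hap' haq')
  have sw : ∀ c : V, det3 m (φ p - φ q) (φ c - φ q) = det3 (-m) (φ q - φ p) (φ c - φ p) := by
    intro c; simp [det3]; ring
  have hm0 : ∀ c ∈ g, dot3 (-m) (φ c - φ p) = 0 := by
    intro c hc
    have := hm.dot hc hp2
    simp [dot3] at this ⊢
    linarith
  obtain ⟨γ, δ, hδ, e2⟩ := decomp (hm0 q hq2) (hm0 b hb) (hm0 b' hb')
    (by rw [← sw]; exact hm.pos hpg hb hbq hbp) (by rw [← sw]; exact hm.pos hpg hb' hbq' hbp')
  refine ⟨β * δ, mul_pos hβ hδ, ?_⟩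
  rw [e1, e2, det3_smul_add]

/-- If the bend at an edge is `0`, then the second face lies in every plane which contains the
first face. -/
lemma plane_step {φ : V → E3} {f g : List V} (hf : ConvexPolygon φ f) (hg : ConvexPolygon φ g)
    {p q a b : V} (hpf : (p, q) ∈ dirEdges f) (hpg : (q, p) ∈ dirEdges g)
    (ha : a ∈ f) (hap : a ≠ p) (haq : a ≠ q) (hb : b ∈ g) (hbp : b ≠ p) (hbq : b ≠ q)
    (h0 : det3 (φ q - φ p) (φ a - φ p) (φ b - φ p) = 0) {n : E3} {c : ℝ}
    (hn : ∀ v ∈ f, dot3 n (φ v) = c) : ∀ v ∈ g, dot3 n (φ v) = c := by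
  obtain ⟨n', hn'⟩ := exists_polyBy hf
  obtain ⟨m, hm⟩ := exists_polyBy hg
  obtain ⟨hp1, hq1⟩ := mem_of_dirEdges hpf
  obtain ⟨hq2, hp2⟩ := mem_of_dirEdges hpg
  have e1 := decomp' (hn'.pos hpf ha hap haq).ne' h0
  have hb0 : dot3 n (φ b - φ p) = 0 := by
    rw [e1, dot3_smul_add, dot3_sub, dot3_sub, hn q hq1, hn p hp1, hn a ha]
    ring
  intro v hv
  have e2 := decomp' (y := φ v - φ q) (hm.pos hpg hb hbq hbp).ne'
    (det_plane (hm.dot hp2 hq2) (hm.dot hb hq2) (hm.dot hv hq2) (hm.pos hpg hb hbq hbp).ne')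
  have h3 : dot3 n (φ v - φ q) = 0 := by
    rw [e2, dot3_smul_add]
    rw [dot3_sub] at hb0
    rw [dot3_sub, dot3_sub, hn q hq1, hn p hp1]
    have : dot3 n (φ b) - c = 0 := by rw [hn p hp1] at hb0; exact hb0
    rw [this]
    ring
  rw [dot3_sub, hn q hq1] at h3
  linarith

lemma mem_face {φ : V → E3} {f : List V} {v : V} (h : v ∈ f) : φ v ∈ face φ f :=
  subset_convexHull ℝ _ ⟨v, h, rfl⟩

/-- a linear inequality which holds at the vertices holds on the face -/
lemma face_le {φ : V → E3} {f : List V} (h : E3 →ₗ[ℝ] ℝ) {c : ℝ}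
    (hv : ∀ v ∈ f, c ≤ h (φ v)) {x : E3} (hx : x ∈ face φ f) : c ≤ h x := by
  have : face φ f ⊆ {x | c ≤ h x} := by
    apply convexHull_min
    · rintro _ ⟨v, hv', rfl⟩
      exact hv v hv'
    · exact convex_halfSpace_ge h.isLinear c
  exact this hx

lemma overlap {A B : Set E3} (hA : Convex ℝ A) (hB : Convex ℝ B) {p q a b n : E3} {γ δ : ℝ}
    (hδ : 0 < δ) (hb : b - p = γ • (q - p) + δ • (a - p)) (hpA : p ∈ A) (hqA : q ∈ A)
    (haA : a ∈ A) (hpB : p ∈ B) (hqB : q ∈ B) (hbB : b ∈ B) (hAB : A ∩ B ⊆ segment ℝ p q)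
    (hn : det3 n (q - p) (a - p) ≠ 0) : False := by
  set ε : ℝ := 1 / (2 * (1 + |γ| + δ)) with hε
  have hpos : 0 < 1 + |γ| + δ := by positivity
  have hε0 : 0 < ε := by positivity
  have hε1 : ε * (1 + |γ| + δ) = 1 / 2 := by
    rw [hε]; field_simp
  have hεg : ε * |γ| ≤ 1 / 2 - ε - ε * δ := by linarith [hε1, mul_add ε (1 + |γ|) δ, mul_add ε 1 |γ|]
  have hεδ : 0 < ε * δ := mul_pos hε0 hδ
  have hg1 : -(ε * |γ|) ≤ ε * γ := by
    have := neg_abs_le γ
    nlinarith
  have hg2 : ε * γ ≤ ε * |γ| := by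
    have := le_abs_self γ
    nlinarith
  set s : ℝ := (1 - ε) / 2 + ε * γ with hs
  set t : ℝ := ε * δ with ht
  have hs0 : 0 ≤ s := by rw [hs]; linarith
  have hst : 0 ≤ 1 - s - t := by rw [hs]; linarith
  have hx : (1 - s - t) • p + s • q + t • a = ((1 - ε) / 2) • p + ((1 - ε) / 2) • q + ε • b := by
    have hb' : b = p + (γ • (q - p) + δ • (a - p)) := by rw [← hb]; abel
    rw [hb', hs, ht]
    module
  have hxA : (1 - s - t) • p + s • q + t • a ∈ A := by
    have := hA.sum_mem (t := Finset.univ) (w := ![1 - s - t, s, t]) (z := ![p, q, a])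
      (by intro i _; fin_cases i <;> simp <;> linarith) (by simp [Fin.sum_univ_three]; ring)
      (by intro i _; fin_cases i <;> simp <;> assumption)
    simpa [Fin.sum_univ_three] using this
  have hε2 : 0 ≤ (1 - ε) / 2 := by
    have h0 := abs_nonneg γ
    have h1 : 0 ≤ ε * |γ| := by positivity
    linarith
  have hxB : (1 - s - t) • p + s • q + t • a ∈ B := by
    rw [hx]
    have := hB.sum_mem (t := Finset.univ) (w := ![(1 - ε) / 2, (1 - ε) / 2, ε]) (z := ![p, q, b])
      (by intro i _; fin_cases i <;> simp <;> linarith) (by simp [Fin.sum_univ_three])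
      (by intro i _; fin_cases i <;> simp <;> assumption)
    simpa [Fin.sum_univ_three] using this
  obtain ⟨u, v, -, -, huv, he⟩ := hAB ⟨hxA, hxB⟩
  have h1 : (v - s) • (q - p) = t • (a - p) := by
    have hu : u = 1 - v := by linarith
    rw [hu] at he
    have e1 : (v - s) • (q - p) - t • (a - p) =
        ((1 - v) • p + v • q) - ((1 - s - t) • p + s • q + t • a) := by module
    rw [he, sub_self] at e1
    exact sub_eq_zero.1 e1
  have h2 : det3 n (q - p) (t • (a - p)) = t * det3 n (q - p) (a - p) := by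
    simp [det3]; ring
  have h3 : det3 n (q - p) ((v - s) • (q - p)) = 0 := by
    simp [det3]; ring
  rw [h1, h2] at h3
  exact (mul_ne_zero hεδ.ne' hn) h3

/-- If two adjacent faces lie in one plane, then they have the same orientation. -/
lemma orient_step {φ : V → E3} {f g : List V} {n : E3} {c : ℝ} (hf : PolyBy φ n f)
    (hg : ConvexPolygon φ g) {p q a b : V} (hpf : (p, q) ∈ dirEdges f)
    (hpg : (q, p) ∈ dirEdges g) (ha : a ∈ f) (hap : a ≠ p) (haq : a ≠ q) (hb : b ∈ g)
    (hbp : b ≠ p) (hbq : b ≠ q) (hn : ∀ v ∈ g, dot3 n (φ v) = c)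
    (hfg : face φ f ∩ face φ g ⊆ segment ℝ (φ p) (φ q)) : PolyBy φ n g := by
  obtain ⟨m, hm⟩ := exists_polyBy hg
  obtain ⟨hp1, hq1⟩ := mem_of_dirEdges hpf
  obtain ⟨hq2, hp2⟩ := mem_of_dirEdges hpg
  have key : ∀ x y z : V, x ∈ g → y ∈ g → z ∈ g →
      dot3 m m * det3 n (φ y - φ x) (φ z - φ x) =
        det3 m (φ y - φ x) (φ z - φ x) * dot3 m n := by
    intro x y z hx hy hz
    rw [det3_rot n, ← dot_mul_det m _ _ n (hm.dot hy hx) (hm.dot hz hx)]
  have hmb := hm.pos hpg hb hbq hbp
  have hmm := dot_self_pos hmb.ne'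
  rcases lt_or_ge 0 (dot3 m n) with h | h
  · refine ⟨⟨c, hn⟩, fun i j k hij hjk => ?_⟩
    have h1 := key _ _ _ (List.get_mem g i) (List.get_mem g j) (List.get_mem g k)
    have h2 := hm.2 i j k hij hjk
    have h3 : 0 < dot3 m m * det3 n (φ (g.get j) - φ (g.get i)) (φ (g.get k) - φ (g.get i)) := by
      rw [h1]; exact mul_pos h2 h
    exact (pos_iff_pos_of_mul_pos h3).1 hmm
  · exfalso
    have hfa := hf.pos hpf ha hap haq
    have hnn := dot_self_pos hfa.ne'
    have h1 := key q p b hq2 hp2 hb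
    have h2 : det3 n (φ p - φ q) (φ b - φ q) ≤ 0 := by
      by_contra h3
      push Not at h3
      have h4 := mul_pos hmm h3
      rw [h1] at h4
      nlinarith
    have h3 : det3 n (φ p - φ q) (φ b - φ q) ≠ 0 := by
      intro h3
      have hpq0 : dot3 n (φ p - φ q) = 0 := by rw [dot3_sub, hn p hp2, hn q hq2, sub_self]
      have hbq0 : dot3 n (φ b - φ q) = 0 := by rw [dot3_sub, hn b hb, hn q hq2, sub_self]
      have h4 := dot_mul_det n _ _ m hpq0 hbq0
      rw [h3, zero_mul] at h4
      have h5 := (mul_eq_zero.1 h4).resolve_left hnn.ne'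
      rw [← det3_rot m] at h5
      exact hmb.ne' h5
    have h4 : 0 < det3 n (φ q - φ p) (φ b - φ p) := by
      have h5 : det3 n (φ q - φ p) (φ b - φ p) = - det3 n (φ p - φ q) (φ b - φ q) := by
        simp [det3]; ring
      rw [h5]
      have := lt_of_le_of_ne h2 h3
      linarith
    have hq0 : dot3 n (φ q - φ p) = 0 := by rw [dot3_sub, hn q hq2, hn p hp2, sub_self]
    have hb0 : dot3 n (φ b - φ p) = 0 := by rw [dot3_sub, hn b hb, hn p hp2, sub_self]
    obtain ⟨γ, δ, hδ, e⟩ := decomp hq0 (hf.dot ha hp1) hb0 hfa h4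
    exact overlap (convex_convexHull ℝ _) (convex_convexHull ℝ _) hδ e (mem_face hp1)
      (mem_face hq1) (mem_face ha) (mem_face hp2) (mem_face hq2) (mem_face hb) hfg hfa.ne'

end poly

end Pool.Agent.H140.PM
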