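import Pool.Agent.H140.PM.Map

set_option autoImplicit false

/-! The vertex `0` is convex in every realization (helper140). -/

namespace Pool.Agent.H140.PM

/-- the linear functional `y ↦ det3 a b y` -/
noncomputable def detL (a b : E3) : E3 →ₗ[ℝ] ℝ where
  toFun y := det3 a b y
  map_add' := by intro x y; simp [det3]; ring
  map_smul' := by intro c x; simp [det3]; ring

lemma detL_apply (a b y : E3) : detL a b y = det3 a b y := rfl

lemma quadCone {V : Type} {φ : V → E3} {w a q b : V} (h : ConvexPolygon φ [w, a, q, b]) :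
    ∃ s t : ℝ, 0 < s ∧ 0 < t ∧ φ q - φ w = s • (φ a - φ w) + t • (φ b - φ w) := by
  obtain ⟨n, hn⟩ := exists_polyBy h
  have h1 := hn.2 ⟨0, by simp⟩ ⟨1, by simp⟩ ⟨2, by simp⟩ (by simp) (by simp)
  have h2 := hn.2 ⟨0, by simp⟩ ⟨2, by simp⟩ ⟨3, by simp⟩ (by simp) (by simp)
  have h3 := hn.2 ⟨0, by simp⟩ ⟨1, by simp⟩ ⟨3, by simp⟩ (by simp) (by simp)
  simp only [List.get_eq_getElem, List.getElem_cons_zero, List.getElem_cons_succ] at h1 h2 h3
  have hw : w ∈ [w, a, q, b] := by simp
  have ha : a ∈ [w, a, q, b] := by simp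
  have hq : q ∈ [w, a, q, b] := by simp
  have hb : b ∈ [w, a, q, b] := by simp
  exact ⟨_, _, div_pos h2 h3, div_pos h1 h3, decomp' h3.ne'
    (det_plane (hn.dot ha hw) (hn.dot hb hw) (hn.dot hq hw) h3.ne')⟩

namespace Torus

lemma Fk_eq : ∀ k : Fin 4, Fk k = [0, u (k - 1), q k, u k] := by decide

lemma adj0 : ∀ v : Fin 17, (0, v) ∈ allEdges F → ∃ j, v = u j := by decide

lemma faces0 : ∀ f ∈ F, 0 ∈ f → ∃ j, f = Fk j := by decide

theorem convexVertex {φ : Fin 17 → E3} (hφ : Realizes F φ) : ConvexVertex F φ 0 := by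
  have hD0 := D_ne_zero hφ
  obtain ⟨σ, hσ0⟩ : ∃ σ : ℝ, 0 < σ * D φ 0 := by
    rcases lt_or_gt_of_ne hD0 with h | h
    · exact ⟨-1, by linarith⟩
    · exact ⟨1, by linarith⟩
  have hσ : ∀ k, 0 < σ * D φ k := by
    intro k
    obtain ⟨t, ht, h⟩ := D_all hφ k
    rw [h, mul_left_comm]
    exact mul_pos ht hσ0
  set A : Fin 4 → E3 := fun k => φ (u k) - φ 0 with hA
  set H : Fin 4 → (E3 →ₗ[ℝ] ℝ) := fun k => σ • detL (A k) (A (k + 1)) with hH
  have H0 : ∀ k, H k (A k) = 0 := by
    intro k; simp [hH, detL_apply, det3]; right; ring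
  have H1 : ∀ k, H k (A (k + 1)) = 0 := by
    intro k; simp [hH, detL_apply, det3]; right; ring
  have H3 : ∀ k, H k (A (k - 1)) = σ * D φ k := by
    intro k; simp [hH, detL_apply, D, hA]
  have H2 : ∀ k, H k (A (k + 2)) = σ * D φ (k + 1) := by
    intro k
    have e1 : ∀ k : Fin 4, k + 1 + 1 = k + 2 := by decide
    have e2 : ∀ k : Fin 4, k + 1 - 1 = k := by decide
    simp only [hH, D, hA, e1 k, e2 k, LinearMap.smul_apply, detL_apply, smul_eq_mul]
    rw [det3_rot]
  have Hnn : ∀ k j, 0 ≤ H k (A j) := by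
    intro k j
    have : j = k ∨ j = k + 1 ∨ j = k + 2 ∨ j = k - 1 := by
      revert k j; decide
    rcases this with rfl | rfl | rfl | rfl
    · rw [H0]
    · rw [H1]
    · rw [H2]; exact (hσ _).le
    · rw [H3]; exact (hσ _).le
  set g : E3 →ₗ[ℝ] ℝ := ∑ k, H k with hg
  have gpos : ∀ j, 0 < g (A j) := by
    intro j
    rw [hg, LinearMap.sum_apply]
    apply Finset.sum_pos' (fun k _ => Hnn k j)
    refine ⟨j + 1, Finset.mem_univ _, ?_⟩
    have e2 : ∀ k : Fin 4, k + 1 - 1 = k := by decide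
    have := H3 (j + 1)
    rw [e2 j] at this
    rw [this]
    exact hσ _
  obtain ⟨ε, hε, hεg⟩ : ∃ ε : ℝ, 0 < ε ∧ ∀ j, ε < g (A j) := by
    obtain ⟨j, -, hj⟩ := Finset.exists_min_image Finset.univ (fun j => g (A j))
      (Finset.univ_nonempty (α := Fin 4))
    refine ⟨g (A j) / 2, by linarith [gpos j], fun i => ?_⟩
    have := hj i (Finset.mem_univ _)
    linarith [gpos j]
  have hval : ∀ k i : Fin 4, ∀ v ∈ Fk i, H k (φ 0) ≤ H k (φ v) := by
    intro k i v hv
    have hq : ConvexPolygon φ [0, u (i - 1), q i, u i] := by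
      rw [← Fk_eq]; exact hφ.polygon _ (Fk_mem i)
    obtain ⟨s, t, hs, ht, e⟩ := quadCone hq
    rw [Fk_eq] at hv
    have hu : ∀ j, H k (φ 0) ≤ H k (φ (u j)) := by
      intro j
      have := Hnn k j
      simp only [hA, map_sub] at this
      linarith
    simp only [List.mem_cons, List.not_mem_nil, or_false] at hv
    rcases hv with rfl | rfl | rfl | rfl
    · exact le_rfl
    · exact hu _
    · have e' := congrArg (H k) e
      rw [map_sub, map_add, map_smul, map_smul, smul_eq_mul, smul_eq_mul] at e'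
      have h1 := mul_nonneg hs.le (Hnn k (i - 1))
      have h2 := mul_nonneg ht.le (Hnn k i)
      simp only [hA] at h1 h2
      linarith
    · exact hu _
  have hval0 : ∀ i : Fin 4, ∀ v ∈ Fk i, H (i - 1) (φ v) = H (i - 1) (φ 0) := by
    intro i v hv
    have hq : ConvexPolygon φ [0, u (i - 1), q i, u i] := by
      rw [← Fk_eq]; exact hφ.polygon _ (Fk_mem i)
    obtain ⟨s, t, hs, ht, e⟩ := quadCone hq
    rw [Fk_eq] at hv
    have z0 := H0 (i - 1)
    have z1 := H1 (i - 1)
    have e1 : ∀ k : Fin 4, k - 1 + 1 = k := by decide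
    rw [e1 i] at z1
    simp only [List.mem_cons, List.not_mem_nil, or_false] at hv
    rcases hv with rfl | rfl | rfl | rfl
    · rfl
    · simp only [hA, map_sub] at z0
      linarith
    · have e' := congrArg (H (i - 1)) e
      rw [map_sub, map_add, map_smul, map_smul, smul_eq_mul, smul_eq_mul] at e'
      simp only [hA] at z0 z1
      rw [z0, z1] at e'
      linarith
    · simp only [hA, map_sub] at z1
      linarith
  refine ⟨g, g (φ 0) + ε, by linarith, ?_, ?_⟩
  · intro v hv
    obtain ⟨j, rfl⟩ := adj0 v hv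
    have := hεg j
    simp only [hA, map_sub] at this
    linarith
  · rintro x ⟨hx, hxf⟩
    simp only [Set.mem_iUnion] at hxf
    obtain ⟨f, ⟨hf, hf0⟩, hxf⟩ := hxf
    obtain ⟨j, rfl⟩ := faces0 f hf hf0
    have hx0 : H (j - 1) x = H (j - 1) (φ 0) := by
      apply le_antisymm
      · have := face_le (-(H (j - 1))) (c := -(H (j - 1) (φ 0))) (fun v hv => by
          rw [LinearMap.neg_apply, hval0 j v hv]) hxf
        rw [LinearMap.neg_apply] at this
        linarith
      · exact face_le _ (fun v hv => (hval0 j v hv).ge) hxf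
    refine ⟨H (j - 1), ?_, ?_⟩
    · rintro y ⟨-, hyf⟩
      simp only [Set.mem_iUnion] at hyf
      obtain ⟨f, ⟨hf, hf0⟩, hyf⟩ := hyf
      obtain ⟨i, rfl⟩ := faces0 f hf hf0
      rw [hx0]
      exact face_le _ (hval _ _) hyf
    · have hgp := gpos (j + 1)
      refine ⟨φ 0 + (ε / g (A (j + 1))) • A (j + 1), ⟨?_, ?_⟩, ?_⟩
      · show g _ = _
        rw [map_add, map_smul, smul_eq_mul, div_mul_cancel₀ _ hgp.ne']
      · simp only [Set.mem_iUnion]
        refine ⟨Fk (j + 1), ⟨Fk_mem _, ?_⟩, ?_⟩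
        · rw [Fk_eq]; simp
        · have m0 : φ 0 ∈ face φ (Fk (j + 1)) := mem_face (by rw [Fk_eq]; simp)
          have m1 : φ (u (j + 1)) ∈ face φ (Fk (j + 1)) := mem_face (by rw [Fk_eq]; simp)
          have hc : Convex ℝ (face φ (Fk (j + 1))) := convex_convexHull ℝ _
          have := hc.add_smul_sub_mem m0 m1 (t := ε / g (A (j + 1)))
            ⟨by positivity, by rw [div_le_one hgp]; exact (hεg _).le⟩
          exact this
      · rw [hx0, map_add, map_smul, smul_eq_mul]
        have e3 : ∀ j : Fin 4, j + 1 = j - 1 + 2 := by decide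
        have h1 : 0 < H (j - 1) (A (j + 1)) := by
          rw [e3 j, H2]; exact hσ _
        have : 0 < ε / g (A (j + 1)) * H (j - 1) (A (j + 1)) := by positivity
        linarith

end Torus

end Pool.Agent.H140.PM
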