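import Pool.Agent.H140.PM.Map

set_option autoImplicit false

/-! The map is realized by a polyhedral torus (helper140). -/

namespace Pool.Agent.H140.PM

/-- the linear functional `y ↦ dot3 n y` -/
noncomputable def dotL (n : E3) : E3 →ₗ[ℝ] ℝ where
  toFun y := dot3 n y
  map_add' := by intro x y; simp [dot3]; ring
  map_smul' := by intro c x; simp [dot3]; ring

lemma dotL_apply (n y : E3) : dotL n y = dot3 n y := rfl

lemma face_inter_plane {V : Type} {φ : V → E3} {f : List V} (h : E3 →ₗ[ℝ] ℝ) {d : ℝ}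
    (hv : ∀ v ∈ f, d ≤ h (φ v)) {x : E3} (hx : x ∈ face φ f) (hxd : h x = d) :
    x ∈ convexHull ℝ (φ '' {v | v ∈ f ∧ h (φ v) = d}) := by
  classical
  set S : Finset E3 := f.toFinset.image φ with hS
  have e : φ '' {v | v ∈ f} = (S : Set E3) := by ext; simp [hS]
  rw [face, e, Finset.mem_convexHull'] at hx
  obtain ⟨w, hw0, hw1, hwx⟩ := hx
  have hsum : ∑ y ∈ S, w y * (h y - d) = 0 := by
    have h1 : ∑ y ∈ S, w y * h y = h x := by
      rw [← hwx, map_sum]
      simp
    have h2 : ∑ y ∈ S, w y * d = d := by rw [← Finset.sum_mul, hw1, one_mul]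
    simp only [mul_sub, Finset.sum_sub_distrib]
    rw [h1, h2, hxd, sub_self]
  have hSd : ∀ y ∈ S, d ≤ h y := by
    intro y hy
    rw [hS, Finset.mem_image] at hy
    obtain ⟨v, hv', rfl⟩ := hy
    exact hv v (List.mem_toFinset.1 hv')
  have hz := (Finset.sum_eq_zero_iff_of_nonneg
    (fun y hy => mul_nonneg (hw0 y hy) (sub_nonneg.2 (hSd y hy)))).1 hsum
  have hzero : ∀ y ∈ S, ¬ h y = d → w y = 0 := by
    intro y hy hne
    rcases mul_eq_zero.1 (hz y hy) with h1 | h1
    · exact h1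
    · exact absurd (sub_eq_zero.1 h1) hne
  have hx' : x ∈ convexHull ℝ ((S.filter fun y => h y = d : Finset E3) : Set E3) := by
    rw [Finset.mem_convexHull']
    refine ⟨w, fun y hy => hw0 y (Finset.mem_filter.1 hy).1, ?_, ?_⟩
    · rw [← hw1]
      apply Finset.sum_subset (Finset.filter_subset _ _)
      intro y hy hny
      exact hzero y hy (fun h' => hny (Finset.mem_filter.2 ⟨hy, h'⟩))
    · rw [← hwx]
      apply Finset.sum_subset (Finset.filter_subset _ _)
      intro y hy hny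
      rw [hzero y hy (fun h' => hny (Finset.mem_filter.2 ⟨hy, h'⟩)), zero_smul]
  refine convexHull_mono ?_ hx'
  intro y hy
  rw [Finset.mem_coe, Finset.mem_filter, hS, Finset.mem_image] at hy
  obtain ⟨⟨v, hv', rfl⟩, h2⟩ := hy
  exact ⟨v, ⟨List.mem_toFinset.1 hv', h2⟩, rfl⟩

namespace Torus

/-- integer vectors as points of Euclidean 3-space -/
noncomputable def toE (p : ℤ × ℤ × ℤ) : E3 := !₂[(p.1 : ℝ), (p.2.1 : ℝ), (p.2.2 : ℝ)]

/-- the realization -/
noncomputable def φ0 (v : Fin 17) : E3 := toE (pt v)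

/-- inner product of integer vectors -/
def idot (n p : ℤ × ℤ × ℤ) : ℤ := n.1 * p.1 + n.2.1 * p.2.1 + n.2.2 * p.2.2

/-- determinant of integer vectors -/
def idet (a b c : ℤ × ℤ × ℤ) : ℤ :=
  a.1 * (b.2.1 * c.2.2 - b.2.2 * c.2.1) - a.2.1 * (b.1 * c.2.2 - b.2.2 * c.1) +
    a.2.2 * (b.1 * c.2.1 - b.2.1 * c.1)

lemma dot_toE (n p : ℤ × ℤ × ℤ) : dot3 (toE n) (toE p) = (idot n p : ℝ) := by
  simp [dot3, toE, idot]

lemma det_toE (a b c d : ℤ × ℤ × ℤ) :
    det3 (toE a) (toE b - toE c) (toE d - toE c) = (idet a (b - c) (d - c) : ℝ) := by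
  simp [det3, toE, idet]

lemma polyCheck : ∀ i : Fin 13, (∀ v ∈ F.get i, idot (nrm i).1 (pt v) = (nrm i).2) ∧
    ∀ a b c : Fin (F.get i).length, a < b → b < c →
      0 < idet (nrm i).1 (pt ((F.get i).get b) - pt ((F.get i).get a))
        (pt ((F.get i).get c) - pt ((F.get i).get a)) := by decide +kernel

lemma sepCheck : ∀ i j : Fin 13, i ≠ j →
    (∀ v ∈ F.get i, (v ∈ F.get j ∧ idot (sepT i j).1 (pt v) = (sepT i j).2) ∨
      (sepT i j).2 < idot (sepT i j).1 (pt v)) ∧
    (∀ v ∈ F.get j, idot (sepT i j).1 (pt v) ≤ (sepT i j).2) := by decide +kernel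

/-- the faces have no common vertex -/
def cA (i j : Fin 13) : Prop := ∀ v ∈ F.get i, v ∉ F.get j

instance (i j : Fin 13) : Decidable (cA i j) := by unfold cA; infer_instance

/-- the faces have exactly one common vertex -/
def cB (i j : Fin 13) : Prop :=
  ∃ v : Fin 17, v ∈ F.get i ∧ v ∈ F.get j ∧ ∀ w ∈ F.get i, w ∈ F.get j → w = v

instance (i j : Fin 13) : Decidable (cB i j) := by unfold cB; infer_instance

/-- the faces have exactly one common edge -/
def cC (i j : Fin 13) : Prop :=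
  ∃ e : Fin 17 × Fin 17, e ∈ dirEdges (F.get i) ∧ (e.2, e.1) ∈ dirEdges (F.get j) ∧
    ∀ w ∈ F.get i, w ∈ F.get j → w = e.1 ∨ w = e.2

instance (i j : Fin 13) : Decidable (cC i j) := by unfold cC; infer_instance

lemma meetCheck : ∀ i j : Fin 13, i ≠ j → cA i j ∨ cB i j ∨ cC i j := by decide +kernel

lemma inj0 : Function.Injective φ0 := by
  have h : ∀ v w : Fin 17, pt v = pt w → v = w := by decide +kernel
  intro v w hvw
  apply h
  have h0 := congrFun (congrArg (fun x : E3 => x.ofLp) hvw) 0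
  have h1 := congrFun (congrArg (fun x : E3 => x.ofLp) hvw) 1
  have h2 := congrFun (congrArg (fun x : E3 => x.ofLp) hvw) 2
  simp [φ0, toE] at h0 h1 h2
  exact Prod.ext h0 (Prod.ext h1 h2)

lemma polygon0 (f : List (Fin 17)) (hf : f ∈ F) : ConvexPolygon φ0 f := by
  obtain ⟨i, rfl⟩ := (F_get f).1 hf
  obtain ⟨h1, h2⟩ := polyCheck i
  refine ⟨toE (nrm i).1, ((nrm i).2 : ℝ), ?_, ?_⟩
  · intro v hv
    rw [φ0, dot_toE, h1 v hv]
  · intro a b c hab hbc
    have := h2 a b c hab hbc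
    simp only [φ0]
    rw [det_toE]
    exact_mod_cast this

lemma inter_sub (i j : Fin 13) (hij : i ≠ j) :
    face φ0 (F.get i) ∩ face φ0 (F.get j) ⊆
      convexHull ℝ (φ0 '' {v | v ∈ F.get i ∧ v ∈ F.get j}) := by
  rintro x ⟨hx1, hx2⟩
  obtain ⟨h1, h2⟩ := sepCheck i j hij
  have g1 : ∀ v ∈ F.get i, ((sepT i j).2 : ℝ) ≤ dotL (toE (sepT i j).1) (φ0 v) := by
    intro v hv
    rw [dotL_apply, φ0, dot_toE]
    rcases h1 v hv with ⟨-, h⟩ | h
    · exact_mod_cast h.ge
    · exact_mod_cast h.le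
  have g2 : ∀ v ∈ F.get j, (-((sepT i j).2 : ℝ)) ≤ (-(dotL (toE (sepT i j).1))) (φ0 v) := by
    intro v hv
    rw [LinearMap.neg_apply, dotL_apply, φ0, dot_toE]
    have := h2 v hv
    have : (idot (sepT i j).1 (pt v) : ℝ) ≤ ((sepT i j).2 : ℝ) := by exact_mod_cast this
    linarith
  have e1 := face_le _ g1 hx1
  have e2 := face_le _ g2 hx2
  rw [LinearMap.neg_apply] at e2
  have e3 := face_inter_plane _ g1 hx1 (by linarith)
  refine convexHull_mono (Set.image_mono ?_) e3
  rintro v ⟨hv, hve⟩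
  refine ⟨hv, ?_⟩
  rcases h1 v hv with ⟨h, -⟩ | h
  · exact h
  · rw [dotL_apply, φ0, dot_toE] at hve
    have : idot (sepT i j).1 (pt v) = (sepT i j).2 := by exact_mod_cast hve
    omega

theorem realizes : Realizes F φ0 := by
  refine ⟨inj0, polygon0, ?_⟩
  intro f hf g hg hfg
  obtain ⟨i, rfl⟩ := (F_get f).1 hf
  obtain ⟨j, rfl⟩ := (F_get g).1 hg
  have hij : i ≠ j := by rintro rfl; exact hfg rfl
  have hsub := inter_sub i j hij
  rcases meetCheck i j hij with h | ⟨v, hv1, hv2, h⟩ | ⟨⟨a, b⟩, he1, he2, h⟩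
  · left
    have : {v | v ∈ F.get i ∧ v ∈ F.get j} = ∅ := by
      ext v
      simp only [Set.mem_ofPred_eq, Set.mem_empty_iff_false, iff_false, not_and]
      exact h v
    rw [this, Set.image_empty, convexHull_empty] at hsub
    exact Set.subset_empty_iff.1 hsub
  · right; left
    refine ⟨v, hv1, hv2, ?_⟩
    apply Set.Subset.antisymm
    · refine hsub.trans ?_
      rw [← convexHull_singleton (𝕜 := ℝ) (φ0 v)]
      apply convexHull_mono
      rintro _ ⟨w, ⟨hw1, hw2⟩, rfl⟩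
      rw [h w hw1 hw2]
      rfl
    · rintro _ rfl
      exact ⟨mem_face hv1, mem_face hv2⟩
  · right; right
    refine ⟨a, b, he1, he2, ?_⟩
    obtain ⟨ha1, hb1⟩ := mem_of_dirEdges he1
    obtain ⟨hb2, ha2⟩ := mem_of_dirEdges he2
    apply Set.Subset.antisymm
    · refine hsub.trans ?_
      rw [← convexHull_pair]
      apply convexHull_mono
      rintro _ ⟨w, ⟨hw1, hw2⟩, rfl⟩
      rcases h w hw1 hw2 with rfl | rfl
      · simp
      · simp
    · apply Set.subset_inter
      · exact (convex_convexHull ℝ _).segment_subset (mem_face ha1) (mem_face hb1)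
      · exact (convex_convexHull ℝ _).segment_subset (mem_face ha2) (mem_face hb2)

end Torus

end Pool.Agent.H140.PM
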