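import Pool.Agent.H140.PM.Basic

set_option autoImplicit false

/-! A map on the torus with 17 vertices and 13 faces (helper140). -/

namespace Pool.Agent.H140.PM

namespace Torus

/-- the thirteen faces -/
def F : List (List (Fin 17)) :=
  [[0, 4, 5, 1],
   [0, 1, 6, 2],
   [0, 2, 7, 3],
   [0, 3, 8, 4],
   [1, 5, 9, 12, 11, 6],
   [2, 6, 11, 13, 10, 7],
   [3, 7, 10, 16, 14, 8],
   [4, 8, 14, 15, 9, 5],
   [12, 9, 10, 13],
   [9, 15, 16, 10],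
   [11, 12, 15, 14],
   [13, 11, 14, 16],
   [12, 13, 16, 15]]

/-- the links of the vertices -/
def lk : Fin 17 → List (Fin 17) :=
  ![[1, 4, 3, 2],
   [0, 6, 5],
   [0, 7, 6],
   [0, 8, 7],
   [0, 5, 8],
   [1, 9, 4],
   [1, 2, 11],
   [2, 3, 10],
   [3, 4, 14],
   [5, 12, 10, 15],
   [7, 16, 9, 13],
   [6, 13, 14, 12],
   [9, 11, 15, 13],
   [10, 12, 16, 11],
   [8, 15, 11, 16],
   [9, 16, 12, 14],
   [10, 14, 13, 15]]

/-- a spanning tree of the graph -/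
def par : Fin 17 → Fin 17 := ![0, 0, 0, 0, 0, 1, 1, 3, 4, 5, 7, 6, 11, 11, 8, 9, 14]

/-- integer coordinates of the vertices -/
def pt : Fin 17 → ℤ × ℤ × ℤ :=
  ![(66, 3, 3),
   (68, 10, 6),
   (68, 6, 10),
   (60, -2, 2),
   (60, 2, -2),
   (60, 12, 0),
   (72, 18, 18),
   (60, 0, 12),
   (48, -6, -6),
   (0, 72, 0),
   (0, 0, 72),
   (72, 36, 36),
   (36, 72, 36),
   (36, 36, 72),
   (24, -12, -12),
   (-12, 24, -12),
   (-12, -12, 24)]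

/-- normal vectors of the faces and their offsets -/
def nrm : Fin 13 → (ℤ × ℤ × ℤ) × ℤ :=
  ![((4, 1, -5), 252),
   ((5, -1, -1), 324),
   ((4, -5, 1), 252),
   ((1, -1, -1), 60),
   ((1, 1, -1), 72),
   ((1, -1, 1), 72),
   ((1, -5, 1), 72),
   ((1, 1, -5), 72),
   ((-1, 1, 1), 72),
   ((-5, 1, 1), 72),
   ((-1, -1, 2), -36),
   ((-1, 2, -1), -36),
   ((2, -1, -1), -36)]

/-- separating planes of the pairs of faces -/
def sepT : Fin 13 → Fin 13 → (ℤ × ℤ × ℤ) × ℤ :=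
  ![![((0, 0, 0), 0), ((0, 3, -7), -12), ((0, 1, -1), 0), ((0, 5, -1), 12), ((3, -3, -5), 144), ((0, 0, -1), -8), ((0, 1, 0), 1), ((1, -1, 5), 48), ((1, -1, -1), -12), ((1, -1, -1), 12), ((1, 0, -1), 48), ((1, 6, -7), 49), ((1, -1, -1), 12)],
   ![((0, -3, 7), 12), ((0, 0, 0), 0), ((7, 7, -5), 468), ((1, 1, 1), 72), ((0, -3, 2), -18), ((1, 1, -2), 54), ((0, 1, 0), 1), ((0, 0, 1), 1), ((1, -1, -1), -18), ((1, -1, -1), 6), ((2, -1, -1), 90), ((2, -1, -1), 90), ((1, -1, -1), 6)],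
   ![((0, -1, 1), 0), ((-7, -7, 5), -468), ((0, 0, 0), 0), ((-1, -1, 11), -36), ((0, -1, 0), -8), ((-1, -1, -7), -144), ((1, 5, -1), 48), ((0, 0, 1), 1), ((1, -1, -1), -12), ((1, -1, -1), 12), ((1, -7, 6), 49), ((1, -1, 0), 48), ((1, -1, -1), 12)],
   ![((0, -5, 1), -12), ((-1, -1, -1), -72), ((1, 1, -11), 36), ((0, 0, 0), 0), ((0, -1, 0), -7), ((0, 0, -1), -7), ((1, 1, -2), 54), ((0, -1, 2), -6), ((1, -1, -1), -6), ((1, -1, -1), 18), ((1, -1, -1), 54), ((1, -1, -1), 54), ((1, -1, -1), 18)],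
   ![((-3, 3, 5), -144), ((0, 3, -2), 18), ((0, 1, 0), 8), ((0, 1, 0), 7), ((0, 0, 0), 0), ((0, 1, -1), 0), ((0, 1, 0), 5), ((1, 1, 1), 72), ((1, 0, -1), 0), ((2, 1, -1), 72), ((2, 2, -3), 108), ((2, 3, -4), 108), ((3, 2, -4), 108)],
   ![((0, 0, 1), 8), ((-1, -1, 2), -54), ((1, 1, 7), 144), ((0, 0, 1), 7), ((0, -1, 1), 0), ((0, 0, 0), 0), ((1, 1, 1), 72), ((0, 0, 1), 5), ((1, -1, 0), 0), ((2, -1, 1), 72), ((2, -4, 3), 108), ((2, -3, 2), 108), ((3, -4, 2), 108)],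
   ![((0, -1, 0), -1), ((0, -1, 0), -1), ((-1, -5, 1), -48), ((-1, -1, 2), -54), ((0, -1, 0), -5), ((-1, -1, -1), -72), ((0, 0, 0), 0), ((0, -1, 1), 0), ((1, -2, -1), -72), ((1, -1, 0), 0), ((1, -4, 2), 48), ((1, -3, 1), 48), ((2, -4, 1), 48)],
   ![((-1, 1, -5), -48), ((0, 0, -1), -1), ((0, 0, -1), -1), ((0, 1, -2), 6), ((-1, -1, -1), -72), ((0, 0, -1), -5), ((0, 1, -1), 0), ((0, 0, 0), 0), ((1, -1, -2), -72), ((1, 0, -1), 0), ((1, 1, -3), 48), ((1, 2, -4), 48), ((2, 1, -4), 48)],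
   ![((-1, 1, 1), 12), ((-1, 1, 1), 18), ((-1, 1, 1), 12), ((-1, 1, 1), 6), ((-1, 0, 1), 0), ((-1, 1, 0), 0), ((-1, 2, 1), 72), ((-1, 1, 2), 72), ((0, 0, 0), 0), ((1, 1, 1), 72), ((-4, 2, 3), 108), ((-4, 3, 2), 108), ((-3, 2, 2), 108)],
   ![((-1, 1, 1), -12), ((-1, 1, 1), -6), ((-1, 1, 1), -12), ((-1, 1, 1), -18), ((-2, -1, 1), -72), ((-2, 1, -1), -72), ((-1, 1, 0), 0), ((-1, 0, 1), 0), ((-1, -1, -1), -72), ((0, 0, 0), 0), ((-4, 1, 2), 48), ((-4, 2, 1), 48), ((-3, 1, 1), 48)],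
   ![((-1, 0, 1), -48), ((-2, 1, 1), -90), ((-1, 7, -6), -49), ((-1, 1, 1), -54), ((-2, -2, 3), -108), ((-2, 4, -3), -108), ((-1, 4, -2), -48), ((-1, -1, 3), -48), ((4, -2, -3), -108), ((4, -1, -2), -48), ((0, 0, 0), 0), ((0, 1, -1), 0), ((1, 0, -1), 0)],
   ![((-1, -6, 7), -49), ((-2, 1, 1), -90), ((-1, 1, 0), -48), ((-1, 1, 1), -54), ((-2, -3, 4), -108), ((-2, 3, -2), -108), ((-1, 3, -1), -48), ((-1, -2, 4), -48), ((4, -3, -2), -108), ((4, -2, -1), -48), ((0, -1, 1), 0), ((0, 0, 0), 0), ((1, -1, 0), 0)],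
   ![((-1, 1, 1), -12), ((-1, 1, 1), -6), ((-1, 1, 1), -12), ((-1, 1, 1), -18), ((-3, -2, 4), -108), ((-3, 4, -2), -108), ((-2, 4, -1), -48), ((-2, -1, 4), -48), ((3, -2, -2), -108), ((3, -1, -1), -48), ((-1, 0, 1), 0), ((-1, 1, 0), 0), ((0, 0, 0), 0)]]

lemma F_get (f : List (Fin 17)) : f ∈ F ↔ ∃ i : Fin 13, F.get i = f := by
  constructor
  · intro h
    obtain ⟨i, hi⟩ := List.mem_iff_get.1 h
    exact ⟨i, hi⟩
  · rintro ⟨i, rfl⟩
    exact List.get_mem _ _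

/-! ### combinatorics -/

lemma cycles : ∀ f ∈ F, 3 ≤ f.length ∧ f.Nodup := by decide

lemma nodup : (allEdges F).Nodup := by decide +kernel

lemma swap : ∀ e ∈ allEdges F, e.swap ∈ allEdges F := by decide +kernel

lemma link (v : Fin 17) : LinkIsCycle F v := by
  refine ⟨lk v, ?_⟩
  revert v
  decide +kernel

lemma par_edge : ∀ v : Fin 17, v ≠ 0 → (par v, v) ∈ allEdges F := by decide +kernel

lemma par_iter : ∀ v : Fin 17, par (par (par (par v))) = 0 := by decide +kernel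

lemma reach (v : Fin 17) :
    Relation.ReflTransGen (fun x y => (x, y) ∈ allEdges F) (par v) v := by
  by_cases h : v = 0
  · subst h
    exact Relation.ReflTransGen.refl
  · exact Relation.ReflTransGen.single (par_edge v h)

lemma reach0 (v : Fin 17) :
    Relation.ReflTransGen (fun x y => (x, y) ∈ allEdges F) 0 v := by
  have := (((reach (par (par (par v)))).trans (reach (par (par v)))).trans (reach (par v))).trans
    (reach v)
  rwa [par_iter] at this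

lemma reach0' (v : Fin 17) :
    Relation.ReflTransGen (fun x y => (x, y) ∈ allEdges F) v 0 := by
  induction reach0 v with
  | refl => exact Relation.ReflTransGen.refl
  | tail _ h ih => exact Relation.ReflTransGen.head (swap _ h) ih

lemma isSurfaceMap : IsSurfaceMap F :=
  ⟨cycles, nodup, swap, link, fun a b => (reach0' a).trans (reach0 b)⟩

lemma euler : (Fintype.card (Fin 17) : ℤ) - ((allEdges F).length / 2 : ℕ) + F.length = 0 := by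
  decide +kernel

lemma valence0 : valence F 0 = 4 := by
  unfold valence Adj
  rw [Nat.card_eq_fintype_card]
  decide +kernel

/-! ### every realization has a convex vertex of valence four -/

/-- the vertices around the vertex `0` -/
def u : Fin 4 → Fin 17 := ![1, 2, 3, 4]

/-- the opposite vertices in the faces at the vertex `0` -/
def q : Fin 4 → Fin 17 := ![5, 6, 7, 8]

/-- the third neighbours of the vertices `q` -/
def r : Fin 4 → Fin 17 := ![9, 11, 10, 14]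

/-- the faces at the vertex `0` -/
def Fk : Fin 4 → List (Fin 17) := ![[0, 4, 5, 1], [0, 1, 6, 2], [0, 2, 7, 3], [0, 3, 8, 4]]

/-- the faces around them -/
def Gk : Fin 4 → List (Fin 17) :=
  ![[1, 5, 9, 12, 11, 6], [2, 6, 11, 13, 10, 7], [3, 7, 10, 16, 14, 8], [4, 8, 14, 15, 9, 5]]

lemma Fk_mem : ∀ k, Fk k ∈ F := by decide
lemma Gk_mem : ∀ k, Gk k ∈ F := by decide

section real
variable {φ : Fin 17 → E3} (hφ : Realizes F φ)
include hφ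

/-- the bend at the edge from `0` to `u k` -/
lemma bendA (k : Fin 4) : ∃ t : ℝ, 0 < t ∧
    det3 (φ (u k) - φ 0) (φ (q (k + 1)) - φ 0) (φ (q k) - φ 0) =
      t * det3 (φ (u k) - φ 0) (φ (u (k + 1)) - φ 0) (φ (u (k - 1)) - φ 0) := by
  refine bend (hφ.polygon _ (Fk_mem (k + 1))) (hφ.polygon _ (Fk_mem k)) ?_ ?_ ?_ ?_ ?_ ?_ ?_ ?_ ?_
    ?_ ?_ ?_ ?_ ?_ <;> revert k <;> decide

/-- the bend at the edge from `u k` to `q k` -/
lemma bendB (k : Fin 4) : ∃ t : ℝ, 0 < t ∧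
    det3 (φ (q k) - φ (u k)) (φ (r k) - φ (u k)) (φ (u (k - 1)) - φ (u k)) =
      t * det3 (φ (q k) - φ (u k)) (φ (q (k + 1)) - φ (u k)) (φ 0 - φ (u k)) := by
  refine bend (hφ.polygon _ (Gk_mem k)) (hφ.polygon _ (Fk_mem k)) ?_ ?_ ?_ ?_ ?_ ?_ ?_ ?_ ?_
    ?_ ?_ ?_ ?_ ?_ <;> revert k <;> decide

/-- the bend at the edge from `u (k - 1)` to `q k` -/
lemma bendC (k : Fin 4) : ∃ t : ℝ, 0 < t ∧
    det3 (φ (q k) - φ (u (k - 1))) (φ (u k) - φ (u (k - 1))) (φ (r k) - φ (u (k - 1))) =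
      t * det3 (φ (q k) - φ (u (k - 1))) (φ 0 - φ (u (k - 1))) (φ (q (k - 1)) - φ (u (k - 1))) := by
  refine bend (hφ.polygon _ (Fk_mem k)) (hφ.polygon _ (Gk_mem (k - 1))) ?_ ?_ ?_ ?_ ?_ ?_ ?_ ?_ ?_
    ?_ ?_ ?_ ?_ ?_ <;> revert k <;> decide

end real

/-- the bend at the vertex `0` -/
noncomputable def D (φ : Fin 17 → E3) (k : Fin 4) : ℝ :=
  det3 (φ (u k) - φ 0) (φ (u (k + 1)) - φ 0) (φ (u (k - 1)) - φ 0)

/-- the bend at the vertex `u k` -/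
noncomputable def Y (φ : Fin 17 → E3) (k : Fin 4) : ℝ :=
  det3 (φ 0 - φ (u k)) (φ (q k) - φ (u k)) (φ (q (k + 1)) - φ (u k))

section real
variable {φ : Fin 17 → E3} (hφ : Realizes F φ)
include hφ

lemma Y_eq_D (k : Fin 4) : ∃ t : ℝ, 0 < t ∧ Y φ k = t * D φ k := by
  obtain ⟨t, ht, h⟩ := bendA hφ k
  refine ⟨t, ht, ?_⟩
  rw [D, ← h, Y]
  simp [det3]
  ring

lemma Y_succ (k : Fin 4) : ∃ t : ℝ, 0 < t ∧ Y φ k = t * Y φ (k - 1) := by
  obtain ⟨t, ht, h⟩ := bendB hφ k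
  obtain ⟨s, hs, h'⟩ := bendC hφ k
  have e1 : det3 (φ (q k) - φ (u k)) (φ (r k) - φ (u k)) (φ (u (k - 1)) - φ (u k)) =
      det3 (φ (q k) - φ (u (k - 1))) (φ (u k) - φ (u (k - 1))) (φ (r k) - φ (u (k - 1))) := by
    simp [det3]; ring
  have e2 : det3 (φ (q k) - φ (u k)) (φ (q (k + 1)) - φ (u k)) (φ 0 - φ (u k)) = Y φ k := by
    simp [det3, Y]; ring
  have e3 : det3 (φ (q k) - φ (u (k - 1))) (φ 0 - φ (u (k - 1)))
      (φ (q (k - 1)) - φ (u (k - 1))) = Y φ (k - 1) := by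
    have : ∀ k : Fin 4, k - 1 + 1 = k := by decide
    simp only [Y, this k]
    simp [det3]; ring
  rw [e2, e1] at h
  rw [e3] at h'
  refine ⟨s / t, div_pos hs ht, ?_⟩
  have : t * Y φ k = s * Y φ (k - 1) := by rw [← h, h']
  field_simp
  linarith

lemma Y_all (k : Fin 4) : ∃ t : ℝ, 0 < t ∧ Y φ k = t * D φ 0 := by
  have h0 := Y_eq_D hφ 0
  have step : ∀ k : Fin 4, (∃ t : ℝ, 0 < t ∧ Y φ (k - 1) = t * D φ 0) →
      ∃ t : ℝ, 0 < t ∧ Y φ k = t * D φ 0 := by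
    rintro k ⟨t, ht, h⟩
    obtain ⟨s, hs, h'⟩ := Y_succ hφ k
    exact ⟨s * t, mul_pos hs ht, by rw [h', h, mul_assoc]⟩
  have h1 := step 1 h0
  have h2 := step 2 h1
  have h3 := step 3 h2
  fin_cases k
  exacts [h0, h1, h2, h3]

lemma D_all (k : Fin 4) : ∃ t : ℝ, 0 < t ∧ D φ k = t * D φ 0 := by
  obtain ⟨t, ht, h⟩ := Y_all hφ k
  obtain ⟨s, hs, h'⟩ := Y_eq_D hφ k
  refine ⟨t / s, div_pos ht hs, ?_⟩
  rw [h'] at h
  field_simp
  linarith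

/-! ### the flat case -/

lemma meet_edge {f g : List (Fin 17)} (hf : f ∈ F) (hg : g ∈ F) (hfg : f ≠ g) {p q : Fin 17}
    (hpf : (p, q) ∈ dirEdges f) (hpg : (q, p) ∈ dirEdges g)
    (hc : ∀ v, v ∈ f → v ∈ g → v = p ∨ v = q) (hpq : p ≠ q) :
    face φ f ∩ face φ g ⊆ segment ℝ (φ p) (φ q) := by
  obtain ⟨hp1, hq1⟩ := mem_of_dirEdges hpf
  obtain ⟨hq2, hp2⟩ := mem_of_dirEdges hpg
  have hp : φ p ∈ face φ f ∩ face φ g := ⟨mem_face hp1, mem_face hp2⟩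
  have hq : φ q ∈ face φ f ∩ face φ g := ⟨mem_face hq1, mem_face hq2⟩
  have hne : φ p ≠ φ q := fun h => hpq (hφ.inj h)
  rcases hφ.meet f hf g hg hfg with h | ⟨v, -, -, h⟩ | ⟨a, b, ha, hb, h⟩
  · rw [h] at hp
    exact absurd hp (Set.notMem_empty _)
  · rw [h] at hp hq
    exact absurd (hp.trans hq.symm) hne
  · obtain ⟨ha1, hb1⟩ := mem_of_dirEdges ha
    obtain ⟨hb2, ha2⟩ := mem_of_dirEdges hb
    have hab : a ≠ b := by
      rintro rfl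
      rw [h, segment_same] at hp hq
      exact hne (hp.trans hq.symm)
    rcases hc a ha1 ha2 with rfl | rfl <;> rcases hc b hb1 hb2 with rfl | rfl
    · exact absurd rfl hab
    · exact h.le
    · rw [h, segment_symm]
    · exact absurd rfl hab

lemma flat_plane (h0 : D φ 0 = 0) : ∃ (n : E3) (c : ℝ), PolyBy φ n (Fk 0) ∧
    ∀ v, dot3 n (φ v) = c := by
  obtain ⟨n, hn⟩ := exists_polyBy (hφ.polygon _ (Fk_mem 0))
  obtain ⟨⟨c, hc⟩, h2⟩ := hn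
  refine ⟨n, c, ⟨⟨c, hc⟩, h2⟩, ?_⟩
  have hD : ∀ k, D φ k = 0 := by
    intro k
    obtain ⟨t, -, h⟩ := D_all hφ k
    rw [h, h0, mul_zero]
  have hY : ∀ k, Y φ k = 0 := by
    intro k
    obtain ⟨t, -, h⟩ := Y_all hφ k
    rw [h, h0, mul_zero]
  have stepF : ∀ k : Fin 4, (∀ v ∈ Fk k, dot3 n (φ v) = c) →
      ∀ v ∈ Fk (k + 1), dot3 n (φ v) = c := by
    intro k hk
    refine plane_step (p := u k) (q := 0) (a := u (k - 1)) (b := u (k + 1))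
      (hφ.polygon _ (Fk_mem k)) (hφ.polygon _ (Fk_mem (k + 1))) ?_ ?_ ?_ ?_ ?_ ?_ ?_ ?_ ?_ hk
    · clear hk; revert k; decide
    · clear hk; revert k; decide
    · clear hk; revert k; decide
    · clear hk; revert k; decide
    · clear hk; revert k; decide
    · clear hk; revert k; decide
    · clear hk; revert k; decide
    · clear hk; revert k; decide
    · rw [← hD k, D]
      simp [det3]; ring
  have stepG : ∀ k : Fin 4, (∀ v ∈ Fk k, dot3 n (φ v) = c) →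
      ∀ v ∈ Gk k, dot3 n (φ v) = c := by
    intro k hk
    refine plane_step (p := q k) (q := u k) (a := 0) (b := q (k + 1))
      (hφ.polygon _ (Fk_mem k)) (hφ.polygon _ (Gk_mem k)) ?_ ?_ ?_ ?_ ?_ ?_ ?_ ?_ ?_ hk
    · clear hk; revert k; decide
    · clear hk; revert k; decide
    · clear hk; revert k; decide
    · clear hk; revert k; decide
    · clear hk; revert k; decide
    · clear hk; revert k; decide
    · clear hk; revert k; decide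
    · clear hk; revert k; decide
    · rw [← hY k, Y]
      simp [det3]; ring
  have f0 := hc
  have f1 := stepF 0 f0
  have f2 := stepF 1 f1
  have f3 := stepF 2 f2
  have fall : ∀ k : Fin 4, ∀ v ∈ Fk k, dot3 n (φ v) = c := by
    intro k
    fin_cases k
    exacts [f0, f1, f2, f3]
  have hcov : ∀ v : Fin 17, (∃ k, v ∈ Fk k) ∨ ∃ k, v ∈ Gk k := by decide
  intro v
  rcases hcov v with ⟨k, hk⟩ | ⟨k, hk⟩
  · exact fall k v hk
  · exact stepG k (fall k) v hk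

lemma D_ne_zero : D φ 0 ≠ 0 := by
  intro h0
  obtain ⟨n, c, hn, hc⟩ := flat_plane hφ h0
  -- all the faces have the same orientation
  have step : ∀ (f g : List (Fin 17)) (p q a b : Fin 17), f ∈ F → g ∈ F → f ≠ g →
      (p, q) ∈ dirEdges f → (q, p) ∈ dirEdges g → (∀ v, v ∈ f → v ∈ g → v = p ∨ v = q) →
      p ≠ q → a ∈ f → a ≠ p → a ≠ q → b ∈ g → b ≠ p → b ≠ q → PolyBy φ n f → PolyBy φ n g := by
    intro f g p q a b hf hg hfg hpf hpg hcm hpq ha hap haq hb hbp hbq h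
    exact orient_step h (hφ.polygon g hg) hpf hpg ha hap haq hb hbp hbq (fun v _ => hc v)
      (meet_edge hφ hf hg hfg hpf hpg hcm hpq)
  have a0 : PolyBy φ n [0, 4, 5, 1] := hn
  have a1 : PolyBy φ n [0, 1, 6, 2] := by
    refine step [0, 4, 5, 1] _ 1 0 4 6 ?_ ?_ ?_ ?_ ?_ ?_ ?_ ?_ ?_ ?_ ?_ ?_ ?_ a0 <;> decide
  have a2 : PolyBy φ n [0, 2, 7, 3] := by
    refine step [0, 1, 6, 2] _ 2 0 1 7 ?_ ?_ ?_ ?_ ?_ ?_ ?_ ?_ ?_ ?_ ?_ ?_ ?_ a1 <;> decide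
  have a3 : PolyBy φ n [0, 3, 8, 4] := by
    refine step [0, 2, 7, 3] _ 3 0 2 8 ?_ ?_ ?_ ?_ ?_ ?_ ?_ ?_ ?_ ?_ ?_ ?_ ?_ a2 <;> decide
  have b0 : PolyBy φ n [1, 5, 9, 12, 11, 6] := by
    refine step [0, 4, 5, 1] _ 5 1 0 6 ?_ ?_ ?_ ?_ ?_ ?_ ?_ ?_ ?_ ?_ ?_ ?_ ?_ a0 <;> decide
  have b1 : PolyBy φ n [2, 6, 11, 13, 10, 7] := by
    refine step [0, 1, 6, 2] _ 6 2 0 7 ?_ ?_ ?_ ?_ ?_ ?_ ?_ ?_ ?_ ?_ ?_ ?_ ?_ a1 <;> decide
  have b2 : PolyBy φ n [3, 7, 10, 16, 14, 8] := by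
    refine step [0, 2, 7, 3] _ 7 3 0 8 ?_ ?_ ?_ ?_ ?_ ?_ ?_ ?_ ?_ ?_ ?_ ?_ ?_ a2 <;> decide
  have b3 : PolyBy φ n [4, 8, 14, 15, 9, 5] := by
    refine step [0, 3, 8, 4] _ 8 4 0 5 ?_ ?_ ?_ ?_ ?_ ?_ ?_ ?_ ?_ ?_ ?_ ?_ ?_ a3 <;> decide
  have c1 : PolyBy φ n [12, 9, 10, 13] := by
    refine step [1, 5, 9, 12, 11, 6] _ 9 12 1 10 ?_ ?_ ?_ ?_ ?_ ?_ ?_ ?_ ?_ ?_ ?_ ?_ ?_ b0 <;> decide
  have c2 : PolyBy φ n [9, 15, 16, 10] := by
    refine step [4, 8, 14, 15, 9, 5] _ 15 9 4 16 ?_ ?_ ?_ ?_ ?_ ?_ ?_ ?_ ?_ ?_ ?_ ?_ ?_ b3 <;> decide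
  have c3 : PolyBy φ n [11, 12, 15, 14] := by
    refine step [1, 5, 9, 12, 11, 6] _ 12 11 1 15 ?_ ?_ ?_ ?_ ?_ ?_ ?_ ?_ ?_ ?_ ?_ ?_ ?_ b0 <;> decide
  have c4 : PolyBy φ n [13, 11, 14, 16] := by
    refine step [2, 6, 11, 13, 10, 7] _ 11 13 2 14 ?_ ?_ ?_ ?_ ?_ ?_ ?_ ?_ ?_ ?_ ?_ ?_ ?_ b1 <;> decide
  have c5 : PolyBy φ n [12, 13, 16, 15] := by
    refine step [12, 9, 10, 13] _ 13 12 9 16 ?_ ?_ ?_ ?_ ?_ ?_ ?_ ?_ ?_ ?_ ?_ ?_ ?_ c1 <;> decide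
  -- signed areas
  obtain ⟨S, hSd⟩ : ∃ S : Fin 17 → Fin 17 → ℝ, ∀ a b, S a b = det3 n (φ a) (φ b) :=
    ⟨fun a b => det3 n (φ a) (φ b), fun _ _ => rfl⟩
  have hS : ∀ a b, S a b + S b a = 0 := by
    intro a b; rw [hSd, hSd, det3_swap]; ring
  have tri : ∀ a b c : Fin 17, det3 n (φ b - φ a) (φ c - φ a) = S a b + S b c + S c a := by
    intro a b c; rw [hSd, hSd, hSd]; simp [det3]; ring
  have quad : ∀ a b c d : Fin 17, PolyBy φ n [a, b, c, d] → 0 < S a b + S b c + S c d + S d a := by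
    intro a b c d h
    have h1 := h.2 ⟨0, by simp⟩ ⟨1, by simp⟩ ⟨2, by simp⟩ (by simp) (by simp)
    have h2 := h.2 ⟨0, by simp⟩ ⟨2, by simp⟩ ⟨3, by simp⟩ (by simp) (by simp)
    simp only [List.get_eq_getElem, List.getElem_cons_zero, List.getElem_cons_succ] at h1 h2
    rw [tri] at h1 h2
    linarith [hS a c]
  have hexa : ∀ a b c d e f : Fin 17, PolyBy φ n [a, b, c, d, e, f] →
      0 < S a b + S b c + S c d + S d e + S e f + S f a := by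
    intro a b c d e f h
    have h1 := h.2 ⟨0, by simp⟩ ⟨1, by simp⟩ ⟨2, by simp⟩ (by simp) (by simp)
    have h2 := h.2 ⟨0, by simp⟩ ⟨2, by simp⟩ ⟨3, by simp⟩ (by simp) (by simp)
    have h3 := h.2 ⟨0, by simp⟩ ⟨3, by simp⟩ ⟨4, by simp⟩ (by simp) (by simp)
    have h4 := h.2 ⟨0, by simp⟩ ⟨4, by simp⟩ ⟨5, by simp⟩ (by simp) (by simp)
    simp only [List.get_eq_getElem, List.getElem_cons_zero, List.getElem_cons_succ] at h1 h2 h3 h4
    rw [tri] at h1 h2 h3 h4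
    linarith [hS a c, hS a d, hS a e]
  have d1 := quad _ _ _ _ a0
  have d2 := quad _ _ _ _ a1
  have d3 := quad _ _ _ _ a2
  have d4 := quad _ _ _ _ a3
  have d5 := hexa _ _ _ _ _ _ b0
  have d6 := hexa _ _ _ _ _ _ b1
  have d7 := hexa _ _ _ _ _ _ b2
  have d8 := hexa _ _ _ _ _ _ b3
  have d9 := quad _ _ _ _ c1
  have d10 := quad _ _ _ _ c2
  have d11 := quad _ _ _ _ c3
  have d12 := quad _ _ _ _ c4
  have d13 := quad _ _ _ _ c5
  linarith [hS 0 1, hS 0 2, hS 0 3, hS 0 4, hS 1 5, hS 1 6, hS 2 6, hS 2 7, hS 3 7, hS 3 8, hS 4 5, hS 4 8, hS 5 9, hS 6 11, hS 7 10, hS 8 14, hS 9 10, hS 9 12, hS 9 15, hS 10 13, hS 10 16, hS 11 12, hS 11 13, hS 11 14, hS 12 13, hS 12 15, hS 13 16, hS 14 15, hS 14 16, hS 15 16]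

end real

end Torus

end Pool.Agent.H140.PM
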